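import Mathlib
import Pool.Agent.N909.CL.Def

set_option autoImplicit false

/-! # Project CL, part G: second moments -/

open MeasureTheory Filter Set
open scoped ENNReal Topology

namespace Pool.Agent.N434.CL.G

/-- Borel-Cantelli for real bounds -/
theorem bc {Ω : Type} {m0 : MeasurableSpace Ω} (μ : Measure Ω) [IsProbabilityMeasure μ] {s : ℕ → Set Ω} {c : ℕ → ℝ}
    (hc : Summable c) (h : ∀ᶠ n in atTop, μ.real (s n) ≤ c n) : ∀ᵐ ω ∂μ, ∀ᶠ n in atTop, ω ∉ s n := by
  obtain ⟨N, hN⟩ := eventually_atTop.1 h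
  have h1 : ∑' n, μ (s (n + N)) ≠ ∞ := by
    have h2 : ∀ n, μ (s (n + N)) ≤ ENNReal.ofReal (c (n + N)) := by
      intro n
      rw [← ofReal_measureReal (measure_ne_top μ (s (n + N)))]
      exact ENNReal.ofReal_le_ofReal (hN _ (by omega))
    have h3 : Summable (fun n => c (n + N)) := (summable_nat_add_iff N).2 hc
    have h4 : ∀ n, 0 ≤ c (n + N) := fun n => measureReal_nonneg.trans (hN _ (by omega))
    refine ne_top_of_le_ne_top ?_ (ENNReal.tsum_le_tsum h2)
    rw [← ENNReal.ofReal_tsum_of_nonneg h4 h3]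
    exact ENNReal.ofReal_ne_top
  filter_upwards [ae_eventually_notMem h1] with ω hω
  obtain ⟨M, hM⟩ := eventually_atTop.1 hω
  filter_upwards [eventually_ge_atTop (M + N)] with n hn
  have := hM (n - N) (by omega)
  rwa [show n - N + N = n by omega] at this

theorem t : Pool.Agent.N909.CL.StmG := by
  intro Ω m0 μ _ Z m r hZ hr
  have hb : ∀ᶠ j in atTop, μ.real {ω | Z j ω ≤ 0} ≤ r j := by
    filter_upwards [hZ] with j hj
    obtain ⟨hm, h1, h2, h3, h4⟩ := hj
    have hi : Integrable (fun ω => (Z j ω - m j) ^ 2) μ := by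
      have : (fun ω => (Z j ω - m j) ^ 2) = fun ω => Z j ω ^ 2 - 2 * m j * Z j ω + m j ^ 2 := by
        funext ω; ring
      rw [this]
      exact (h2.sub (h1.const_mul _)).add (integrable_const _)
    have hint : ∫ ω, (Z j ω - m j) ^ 2 ∂μ = ∫ ω, Z j ω ^ 2 ∂μ - m j ^ 2 := by
      have : (fun ω => (Z j ω - m j) ^ 2) = fun ω => Z j ω ^ 2 - 2 * m j * Z j ω + m j ^ 2 := by
        funext ω; ring
      have e1 : ∫ ω, (Z j ω ^ 2 - 2 * m j * Z j ω + m j ^ 2) ∂μ =
          ∫ ω, (Z j ω ^ 2 - 2 * m j * Z j ω) ∂μ + ∫ _ω, m j ^ 2 ∂μ :=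
        integral_add (h2.sub (h1.const_mul _)) (integrable_const _)
      have e2 : ∫ ω, (Z j ω ^ 2 - 2 * m j * Z j ω) ∂μ = ∫ ω, Z j ω ^ 2 ∂μ - ∫ ω, 2 * m j * Z j ω ∂μ :=
        integral_sub h2 (h1.const_mul _)
      rw [this, e1, e2, integral_const_mul, h3, integral_const, probReal_univ, one_smul]
      ring
    have hM := mul_meas_ge_le_integral_of_nonneg (μ := μ) (f := fun ω => (Z j ω - m j) ^ 2)
      (Eventually.of_forall fun ω => sq_nonneg _) hi (m j ^ 2)
    rw [hint] at hM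
    have hsub : μ.real {ω | Z j ω ≤ 0} ≤ μ.real {ω | m j ^ 2 ≤ (Z j ω - m j) ^ 2} := by
      refine measureReal_mono ?_
      intro ω hω
      have hω : Z j ω ≤ 0 := hω
      show m j ^ 2 ≤ (Z j ω - m j) ^ 2
      nlinarith
    have h5 : m j ^ 2 * μ.real {ω | Z j ω ≤ 0} ≤ m j ^ 2 * r j := by
      have := mul_le_mul_of_nonneg_left hsub (sq_nonneg (m j))
      nlinarith
    exact le_of_mul_le_mul_left h5 (by positivity)
  filter_upwards [bc μ hr hb] with ω hω
  filter_upwards [hω] with j hj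
  exact not_le.1 hj

end Pool.Agent.N434.CL.G
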